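import Pool.Agent.Helper28.BPack.ModLine

/-!
# Skew lines by linear algebra

`u` a line of a set `A` of points of rank four.  The points of `A` off `u`, except one point (or
more) in every plane over `u`, have different skew lines (lines through the point which leave its
plane over `u`): the incidence rows are linearly independent over `ℚ`.
-/

set_option autoImplicit false
set_option linter.unusedSectionVars false

namespace Pool.Agent.Helper78.SC

open Pool.Agent.Helper28.BPack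

/-- A homogeneous linear system with more unknowns than equations has a non zero solution. -/
theorem exists_null {α β : Type} (S : Finset α) (T : Finset β) (r : α → β → Prop)
    [∀ z g, Decidable (r z g)] (h : T.card < S.card) :
    ∃ f : α → ℚ, (∃ z ∈ S, f z ≠ 0) ∧ (∀ z, z ∉ S → f z = 0) ∧
      ∀ g ∈ T, ∑ z ∈ S, (if r z g then f z else 0) = 0 := by
  classical
  let M : Matrix T S ℚ := fun g z => if r z.1 g.1 then 1 else 0
  have hk : LinearMap.ker M.mulVecLin ≠ ⊥ := by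
    apply LinearMap.ker_ne_bot_of_finrank_lt
    rw [Module.finrank_fintype_fun_eq_card, Module.finrank_fintype_fun_eq_card,
      Fintype.card_coe, Fintype.card_coe]
    exact h
  obtain ⟨v, hv, hv0⟩ := (Submodule.ne_bot_iff _).mp hk
  refine ⟨fun z => if hz : z ∈ S then v ⟨z, hz⟩ else 0, ?_, ?_, ?_⟩
  · by_contra hc
    push Not at hc
    apply hv0
    funext z
    have h1 := hc z.1 z.2
    rw [dif_pos z.2] at h1
    exact h1
  · intro z hz
    exact dif_neg hz
  · intro g hg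
    have h1 : (M.mulVec v) ⟨g, hg⟩ = 0 := by
      have h2 := LinearMap.mem_ker.mp hv
      rw [Matrix.mulVecLin_apply] at h2
      rw [h2]
      rfl
    rw [Matrix.mulVec, dotProduct] at h1
    rw [← Finset.sum_coe_sort S]
    refine Eq.trans (Finset.sum_congr rfl fun z _ => ?_) h1
    simp only [M]
    rw [dif_pos z.2]
    split_ifs <;> simp

variable {L : Type} [Lattice L] [BoundedOrder L] [Finite L] [IsUpperModularLattice L]

open Classical in
/-- The skew lines of the point `z`. -/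
noncomputable def NL (A : Finset L) (u z : L) : Finset L :=
  (A.filter (fun y => ¬ y ≤ u ⊔ z)).image (fun y => z ⊔ y)

theorem mem_NL {A : Finset L} {u z g : L} :
    g ∈ NL A u z ↔ ∃ y ∈ A, ¬ y ≤ u ⊔ z ∧ z ⊔ y = g := by
  classical
  simp only [NL, Finset.mem_image, Finset.mem_filter]
  constructor
  · rintro ⟨y, ⟨h1, h2⟩, h3⟩
    exact ⟨y, h1, h2, h3⟩
  · rintro ⟨y, h1, h2, h3⟩
    exact ⟨y, ⟨h1, h2⟩, h3⟩

section

variable {A : Finset L} {u : L}

theorem NL_rk (hA : ∀ a ∈ A, IsAtom a) {z g : L} (hz : z ∈ A) (hg : g ∈ NL A u z) :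
    rk g = 2 := by
  obtain ⟨y, hy, hyz, rfl⟩ := mem_NL.mp hg
  exact rk_line (hA z hz) (hA y hy) (fun h => hyz (h ▸ le_sup_right))

theorem NL_not_le {z g : L} (hg : g ∈ NL A u z) : ¬ g ≤ u ⊔ z := by
  obtain ⟨y, hy, hyz, rfl⟩ := mem_NL.mp hg
  exact fun h => hyz (le_sup_right.trans h)

/-- A skew line of `z` is a skew line of all its points off `u`. -/
theorem NL_of_le (hA : ∀ a ∈ A, IsAtom a) (hu : rk u = 2) {z w g : L} (hz : z ∈ A)
    (hzu : ¬ z ≤ u) (hw : w ∈ A) (hwu : ¬ w ≤ u) (hg : g ∈ NL A u z) (hwg : w ≤ g) :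
    g ∈ NL A u w := by
  obtain ⟨y, hy, hyz, hzy⟩ := mem_NL.mp hg
  have hg2 := NL_rk hA hz hg
  have hzw3 : rk (u ⊔ w) = 3 := by rw [rk_sup_atom (hA w hw) hwu, hu]
  have hz3 : rk (u ⊔ z) = 3 := by rw [rk_sup_atom (hA z hz) hzu, hu]
  by_cases h1 : z ≤ u ⊔ w
  · have h2 : u ⊔ z = u ⊔ w := eq_of_le_of_rk (sup_le le_sup_left h1) (by omega)
    have h3 : ¬ y ≤ u ⊔ w := h2 ▸ hyz
    refine mem_NL.mpr ⟨y, hy, h3, ?_⟩
    exact line_eq (hA w hw) (hA y hy) (fun h => h3 (h ▸ le_sup_right)) hwg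
      (hzy ▸ le_sup_right) hg2
  · refine mem_NL.mpr ⟨z, hz, h1, ?_⟩
    exact line_eq (hA w hw) (hA z hz) (fun h => h1 (h ▸ le_sup_right)) hwg
      (hzy ▸ le_sup_left) hg2

theorem NL_nonempty (hA : ∀ a ∈ A, IsAtom a) (hr : rk (A.sup id) = 4) (hu : rk u = 2) {z : L}
    (hz : z ∈ A) : (NL A u z).Nonempty := by
  by_contra hne
  rw [Finset.not_nonempty_iff_eq_empty] at hne
  have h1 : A.sup id ≤ u ⊔ z := by
    refine Finset.sup_le fun y hy => ?_
    by_contra hyz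
    have h2 : z ⊔ y ∈ NL A u z := mem_NL.mpr ⟨y, hy, hyz, rfl⟩
    rw [hne] at h2
    exact absurd h2 (Finset.notMem_empty _)
  have h2 := rk_mono h1
  have h3 := rk_sup_atom_le (x := u) (hA z hz)
  omega

open Classical in
/-- Hall's condition for the skew lines. -/
theorem hall_skew (hA : ∀ a ∈ A, IsAtom a) (hr : rk (A.sup id) = 4) (hu : rk u = 2)
    (E : Finset L)
    (hE : ∀ z ∈ A, ¬ z ≤ u → ∃ e ∈ E, e ∈ A ∧ ¬ e ≤ u ∧ u ⊔ e = u ⊔ z)
    {S : Finset L} (hS : ∀ z ∈ S, z ∈ A ∧ ¬ z ≤ u ∧ z ∉ E) :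
    S.card ≤ (S.biUnion (NL A u)).card := by
  by_contra hlt
  push Not at hlt
  obtain ⟨f, ⟨z0, hz0, hf0⟩, hfS, hf⟩ := exists_null S (S.biUnion (NL A u))
    (fun z g => g ∈ NL A u z) hlt
  set V := A.filter (fun z => ¬ z ≤ u) with hV
  have hSV : S ⊆ V := fun z hz => Finset.mem_filter.mpr ⟨(hS z hz).1, (hS z hz).2.1⟩
  -- all skew lines have sum zero
  have hline : ∀ z ∈ V, ∀ g ∈ NL A u z, ∑ w ∈ V.filter (fun w => w ≤ g), f w = 0 := by
    intro z hz g hg
    have hz' := Finset.mem_filter.mp hz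
    have e1 : ∑ w ∈ V.filter (fun w => w ≤ g), f w = ∑ w ∈ S.filter (fun w => w ≤ g), f w := by
      symm
      refine Finset.sum_subset (Finset.filter_subset_filter _ hSV) fun w hw hwS => ?_
      refine hfS w fun hwS' => hwS (Finset.mem_filter.mpr ⟨hwS', (Finset.mem_filter.mp hw).2⟩)
    have e2 : ∀ w ∈ S, (w ≤ g ↔ g ∈ NL A u w) := by
      intro w hw
      refine ⟨fun h => NL_of_le hA hu hz'.1 hz'.2 (hS w hw).1 (hS w hw).2.1 hg h, fun h => ?_⟩
      obtain ⟨y, -, -, hy⟩ := mem_NL.mp h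
      exact hy ▸ le_sup_left
    rw [e1]
    by_cases hgS : g ∈ S.biUnion (NL A u)
    · have h1 := hf g hgS
      rw [Finset.sum_filter]
      refine Eq.trans (Finset.sum_congr rfl fun w hw => ?_) h1
      by_cases h2 : w ≤ g
      · rw [if_pos h2, if_pos ((e2 w hw).mp h2)]
      · rw [if_neg h2, if_neg (fun h3 => h2 ((e2 w hw).mpr h3))]
    · rw [Finset.filter_false_of_mem, Finset.sum_empty]
      intro w hw h2
      exact hgS (Finset.mem_biUnion.mpr ⟨w, hw, (e2 w hw).mp h2⟩)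
  -- the sum over the points off the plane of `z`
  have hsum : ∀ z ∈ V, ∑ w ∈ V.filter (fun w => ¬ w ≤ u ⊔ z), f w = -((NL A u z).card * f z) := by
    intro z hz
    have hz' := Finset.mem_filter.mp hz
    have hmaps : ∀ w ∈ V.filter (fun w => ¬ w ≤ u ⊔ z), z ⊔ w ∈ NL A u z := by
      intro w hw
      have h1 := Finset.mem_filter.mp hw
      exact mem_NL.mpr ⟨w, (Finset.mem_filter.mp h1.1).1, h1.2, rfl⟩
    rw [← Finset.sum_fiberwise_of_maps_to hmaps]
    have hfib : ∀ g ∈ NL A u z,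
        ∑ w ∈ (V.filter (fun w => ¬ w ≤ u ⊔ z)).filter (fun w => z ⊔ w = g), f w = - f z := by
      intro g hg
      have hzg : z ≤ g := by
        obtain ⟨y, -, -, hy⟩ := mem_NL.mp hg
        exact hy ▸ le_sup_left
      have h1 := hline z hz g hg
      have h2 : V.filter (fun w => w ≤ g) =
          insert z ((V.filter (fun w => ¬ w ≤ u ⊔ z)).filter (fun w => z ⊔ w = g)) := by
        ext w
        simp only [Finset.mem_filter, Finset.mem_insert]
        constructor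
        · rintro ⟨hwV, hwg⟩
          by_cases hwz : w = z
          · exact Or.inl hwz
          · right
            have hwA := (Finset.mem_filter.mp hwV).1
            have h3 : z ⊔ w = g := line_eq (hA z hz'.1) (hA w hwA) (fun h => hwz h.symm) hzg
              hwg (NL_rk hA hz'.1 hg)
            refine ⟨⟨hwV, fun h4 => NL_not_le hg ?_⟩, h3⟩
            rw [← h3]
            exact sup_le le_sup_right h4
        · rintro (rfl | ⟨⟨hwV, -⟩, h3⟩)
          · exact ⟨hz, hzg⟩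
          · exact ⟨hwV, h3 ▸ le_sup_right⟩
      rw [h2, Finset.sum_insert] at h1
      · linarith
      · intro h3
        exact (Finset.mem_filter.mp (Finset.mem_filter.mp h3).1).2 le_sup_right
    rw [Finset.sum_congr rfl hfib, Finset.sum_const, nsmul_eq_mul]
    ring
  have hsplit : ∀ z, ∑ w ∈ V.filter (fun w => w ≤ u ⊔ z), f w +
      ∑ w ∈ V.filter (fun w => ¬ w ≤ u ⊔ z), f w = ∑ w ∈ V, f w := fun z =>
    Finset.sum_filter_add_sum_filter_not V (fun w => w ≤ u ⊔ z) f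
  have hz0V := hSV hz0
  obtain ⟨e, heE, heA, heu, hez⟩ := hE z0 (hS z0 hz0).1 (hS z0 hz0).2.1
  have heV : e ∈ V := Finset.mem_filter.mpr ⟨heA, heu⟩
  have hfe : f e = 0 := hfS e fun h => (hS e h).2.2 heE
  have h1 := hsum e heV
  have h2 := hsum z0 hz0V
  have h3 := hsplit e
  have h4 := hsplit z0
  rw [h1, hfe, mul_zero, neg_zero, add_zero, hez] at h3
  rw [h2, h3] at h4
  have h5 : ((NL A u z0).card : ℚ) * f z0 = 0 := by linarith
  have h6 : 0 < (NL A u z0).card := Finset.card_pos.mpr (NL_nonempty hA hr hu (hS z0 hz0).1)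
  have h7 : ((NL A u z0).card : ℚ) ≠ 0 := by exact_mod_cast h6.ne'
  rcases mul_eq_zero.mp h5 with h8 | h8
  · exact h7 h8
  · exact hf0 h8

/-- **Skew lines.** -/
theorem skew_lines {A : Finset L} (hA : ∀ a ∈ A, IsAtom a) (hr : rk (A.sup id) = 4) {u : L}
    (hu : rk u = 2) (E : Finset L)
    (hE : ∀ z ∈ A, ¬ z ≤ u → ∃ e ∈ E, e ∈ A ∧ ¬ e ≤ u ∧ u ⊔ e = u ⊔ z) :
    ∃ g : L → L,
      (∀ z ∈ A, ¬ z ≤ u → z ∉ E →
        rk (g z) = 2 ∧ z ≤ g z ∧ (∃ y ∈ A, y ≤ g z ∧ ¬ y ≤ u ⊔ z)) ∧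
      (∀ z ∈ A, ¬ z ≤ u → z ∉ E → ∀ z' ∈ A, ¬ z' ≤ u → z' ∉ E → g z = g z' → z = z') := by
  classical
  let ι := {z : L // z ∈ A ∧ ¬ z ≤ u ∧ z ∉ E}
  have hall : ∀ s : Finset ι, s.card ≤ (s.biUnion fun z => NL A u z.1).card := by
    intro s
    have h1 := hall_skew hA hr hu E hE (S := s.image Subtype.val) (fun z hz => by
      obtain ⟨y, -, rfl⟩ := Finset.mem_image.mp hz
      exact y.2)
    rw [Finset.card_image_of_injective _ Subtype.val_injective, Finset.image_biUnion] at h1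
    exact h1
  obtain ⟨F, hFinj, hF⟩ := (Finset.all_card_le_biUnion_card_iff_exists_injective _).mp hall
  refine ⟨fun z => if h : z ∈ A ∧ ¬ z ≤ u ∧ z ∉ E then F ⟨z, h⟩ else z, ?_, ?_⟩
  · intro z hz hzu hzE
    have h : z ∈ A ∧ ¬ z ≤ u ∧ z ∉ E := ⟨hz, hzu, hzE⟩
    have h1 := hF ⟨z, h⟩
    simp only [dif_pos h]
    obtain ⟨y, hy, hyz, hzy⟩ := mem_NL.mp h1
    exact ⟨NL_rk hA hz h1, hzy ▸ le_sup_left, y, hy, hzy ▸ le_sup_right, hyz⟩
  · intro z hz hzu hzE z' hz' hzu' hzE' e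
    have h : z ∈ A ∧ ¬ z ≤ u ∧ z ∉ E := ⟨hz, hzu, hzE⟩
    have h' : z' ∈ A ∧ ¬ z' ≤ u ∧ z' ∉ E := ⟨hz', hzu', hzE'⟩
    simp only [dif_pos h, dif_pos h'] at e
    exact congrArg Subtype.val (hFinj e)

end

end Pool.Agent.Helper78.SC
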