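import Mathlib

/-!
# Corradi's inequality (sets with small pairwise intersections)

Row (P1) of the short colines page: sets `E i` inside a finite set `O`, any two with at most `t`
common points and each with `(k+1) * t * |O| <= |E i|^2`, have total size at most
`(k+1)/k * |O|`.
-/

open Finset

namespace Pool.Agent.Helper78.SC

theorem mul_ge_of_sq {c a b : ℕ} (ha : c ≤ a ^ 2) (hb : c ≤ b ^ 2) : c ≤ a * b := by
  rcases le_total a b with h | h
  · calc c ≤ a ^ 2 := ha
      _ = a * a := sq a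
      _ ≤ a * b := Nat.mul_le_mul_left _ h
  · calc c ≤ b ^ 2 := hb
      _ = b * b := sq b
      _ ≤ a * b := Nat.mul_le_mul_right _ h

/-- **Corradi.** -/
theorem corradi {α ι : Type*} [DecidableEq α] (O : Finset α) (I : Finset ι) (E : ι → Finset α)
    (t k : ℕ) (hE : ∀ i ∈ I, E i ⊆ O)
    (hint : ∀ i ∈ I, ∀ j ∈ I, i ≠ j → (E i ∩ E j).card ≤ t)
    (hbig : ∀ i ∈ I, (k + 1) * t * O.card ≤ (E i).card ^ 2) :
    k * ∑ i ∈ I, (E i).card ≤ (k + 1) * O.card := by
  classical
  set S := ∑ i ∈ I, (E i).card with hS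
  set d : α → ℕ := fun x => ∑ i ∈ I, if x ∈ E i then 1 else 0 with hd
  have h1 : ∑ x ∈ O, d x = S := by
    rw [hd, Finset.sum_comm, hS]
    refine Finset.sum_congr rfl fun i hi => ?_
    rw [← Finset.card_filter]
    congr 1
    ext x
    simp only [Finset.mem_filter]
    exact ⟨fun h => h.2, fun h => ⟨hE i hi h, h⟩⟩
  have h2 : ∑ x ∈ O, d x ^ 2 ≤ S + t * I.card ^ 2 := by
    have e1 : ∀ x, d x ^ 2 = ∑ i ∈ I, ∑ j ∈ I, if x ∈ E i ∩ E j then 1 else 0 := by
      intro x
      rw [sq, hd]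
      simp only
      rw [Finset.sum_mul_sum]
      refine Finset.sum_congr rfl fun i _ => Finset.sum_congr rfl fun j _ => ?_
      by_cases hi : x ∈ E i <;> by_cases hj : x ∈ E j <;> simp [hi, hj]
    have e2 : ∑ x ∈ O, d x ^ 2 = ∑ i ∈ I, ∑ j ∈ I, (E i ∩ E j).card := by
      rw [Finset.sum_congr rfl fun x _ => e1 x, Finset.sum_comm]
      refine Finset.sum_congr rfl fun i hi => ?_
      rw [Finset.sum_comm]
      refine Finset.sum_congr rfl fun j _ => ?_
      rw [← Finset.card_filter]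
      congr 1
      ext x
      simp only [Finset.mem_filter, Finset.mem_inter]
      exact ⟨fun h => h.2, fun h => ⟨hE i hi h.1, h⟩⟩
    rw [e2]
    have e3 : ∀ i ∈ I, ∑ j ∈ I, (E i ∩ E j).card ≤ (E i).card + t * I.card := by
      intro i hi
      rw [← Finset.add_sum_erase I _ hi, Finset.inter_self]
      refine Nat.add_le_add_left ?_ _
      calc ∑ j ∈ I.erase i, (E i ∩ E j).card ≤ ∑ j ∈ I.erase i, t :=
            Finset.sum_le_sum fun j hj =>
              hint i hi j (Finset.mem_of_mem_erase hj) (Finset.ne_of_mem_erase hj).symm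
        _ = (I.erase i).card * t := by rw [Finset.sum_const, smul_eq_mul]
        _ ≤ I.card * t := Nat.mul_le_mul_right _ (Finset.card_le_card (Finset.erase_subset _ _))
        _ = t * I.card := Nat.mul_comm _ _
    calc ∑ i ∈ I, ∑ j ∈ I, (E i ∩ E j).card ≤ ∑ i ∈ I, ((E i).card + t * I.card) :=
          Finset.sum_le_sum e3
      _ = S + t * I.card ^ 2 := by
          rw [Finset.sum_add_distrib, Finset.sum_const, smul_eq_mul, hS]
          ring
  have h3 : S ^ 2 ≤ O.card * (S + t * I.card ^ 2) := by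
    have hc : ((∑ x ∈ O, (d x : ℤ)) ^ 2) ≤ (O.card : ℤ) * ∑ x ∈ O, (d x : ℤ) ^ 2 :=
      sq_sum_le_card_mul_sum_sq
    have hc' : (∑ x ∈ O, d x) ^ 2 ≤ O.card * ∑ x ∈ O, d x ^ 2 := by
      exact_mod_cast hc
    rw [h1] at hc'
    exact hc'.trans (Nat.mul_le_mul_left _ h2)
  have h4 : (k + 1) * t * O.card * I.card ^ 2 ≤ S ^ 2 := by
    rw [sq S, hS, Finset.sum_mul_sum]
    calc (k + 1) * t * O.card * I.card ^ 2
        = ∑ i ∈ I, ∑ j ∈ I, (k + 1) * t * O.card := by
          rw [Finset.sum_const, Finset.sum_const, smul_eq_mul, smul_eq_mul]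
          ring
      _ ≤ ∑ i ∈ I, ∑ j ∈ I, (E i).card * (E j).card :=
          Finset.sum_le_sum fun i hi => Finset.sum_le_sum fun j hj =>
            mul_ge_of_sq (hbig i hi) (hbig j hj)
  rcases Nat.eq_zero_or_pos S with h0 | h0
  · rw [h0]; simp
  · have h5 : k * S * S ≤ (k + 1) * O.card * S := by
      have h6 : (k + 1) * S ^ 2 ≤ (k + 1) * O.card * S + S ^ 2 := by
        calc (k + 1) * S ^ 2 ≤ (k + 1) * (O.card * (S + t * I.card ^ 2)) :=
              Nat.mul_le_mul_left _ h3
          _ = (k + 1) * O.card * S + (k + 1) * t * O.card * I.card ^ 2 := by ring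
          _ ≤ (k + 1) * O.card * S + S ^ 2 := Nat.add_le_add_left h4 _
      nlinarith [h6]
    exact Nat.le_of_mul_le_mul_right h5 h0

end Pool.Agent.Helper78.SC
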