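import Mathlib

/-!
# Numbers for SmallColines (piece (A))
-/

namespace Pool.Agent.Helper78.SC

theorem num1 {r t : ℕ} (hr : 4 ≤ r) (ht : 1 ≤ t) :
    8 ^ r * r * t ^ ((r + 1) / 2) + (2 ^ r + 1) * t ≤ (16 * t) ^ r := by
  have h1 : t ^ ((r + 1) / 2) ≤ t ^ r := Nat.pow_le_pow_right ht (by omega)
  have h2 : t ≤ t ^ r := by
    calc t = t ^ 1 := (pow_one t).symm
      _ ≤ t ^ r := Nat.pow_le_pow_right ht (by omega)
  have h3 : r + 1 ≤ 2 ^ r := Nat.lt_two_pow_self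
  have h4 : 2 ^ r + 1 ≤ 8 ^ r := by
    have h5 : (2 : ℕ) ^ r < 8 ^ r := Nat.pow_lt_pow_left (by norm_num) (by omega)
    omega
  have h6 : (16 * t) ^ r = 8 ^ r * 2 ^ r * t ^ r := by
    rw [← mul_pow, ← mul_pow]
    norm_num
  rw [h6]
  calc 8 ^ r * r * t ^ ((r + 1) / 2) + (2 ^ r + 1) * t
      ≤ 8 ^ r * r * t ^ r + 8 ^ r * t ^ r :=
        Nat.add_le_add (Nat.mul_le_mul_left _ h1) (Nat.mul_le_mul h4 h2)
    _ = 8 ^ r * (r + 1) * t ^ r := by ring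
    _ ≤ 8 ^ r * 2 ^ r * t ^ r := Nat.mul_le_mul_right _ (Nat.mul_le_mul_left _ h3)

theorem num2 {r t : ℕ} (hr : 4 ≤ r) (ht : 1 ≤ t) :
    (16 * t) ^ r + 3 * 4 ^ r * ((16 * t) ^ r) ^ ((r + 1) / 2) ≤ (16 * t) ^ (r ^ 2) := by
  obtain ⟨m, hm⟩ : ∃ m, m = (r + 1) / 2 := ⟨_, rfl⟩
  rw [← hm]
  have hm1 : 1 ≤ m := by omega
  have hm2 : m + 2 ≤ r := by omega
  have hT : 16 ≤ 16 * t := by omega
  have hT1 : 1 ≤ 16 * t := by omega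
  have e1 : ((16 * t) ^ r) ^ m = (16 * t) ^ (r * m) := (pow_mul _ _ _).symm
  have h1 : (16 * t) ^ r ≤ (16 * t) ^ (r * m) :=
    Nat.pow_le_pow_right hT1 (Nat.le_mul_of_pos_right _ hm1)
  have h2 : (16 * t) ^ (r * m) * (16 * t) ^ (r * 2) ≤ (16 * t) ^ (r ^ 2) := by
    rw [← pow_add]
    refine Nat.pow_le_pow_right hT1 ?_
    rw [← Nat.mul_add, sq]
    exact Nat.mul_le_mul_left _ hm2
  have h3 : 4 * 4 ^ r ≤ (16 * t) ^ (r * 2) := by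
    calc 4 * 4 ^ r = 4 ^ (r + 1) := by ring
      _ ≤ 4 ^ (2 * (r * 2)) := Nat.pow_le_pow_right (by norm_num) (by omega)
      _ = 16 ^ (r * 2) := by rw [pow_mul]; norm_num
      _ ≤ (16 * t) ^ (r * 2) := Nat.pow_le_pow_left hT _
  have h4 : 1 ≤ 4 ^ r := Nat.one_le_pow _ _ (by norm_num)
  rw [e1]
  calc (16 * t) ^ r + 3 * 4 ^ r * (16 * t) ^ (r * m)
      ≤ (16 * t) ^ (r * m) + 3 * 4 ^ r * (16 * t) ^ (r * m) := Nat.add_le_add_right h1 _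
    _ = (1 + 3 * 4 ^ r) * (16 * t) ^ (r * m) := by ring
    _ ≤ (4 * 4 ^ r) * (16 * t) ^ (r * m) := Nat.mul_le_mul_right _ (by omega)
    _ ≤ (16 * t) ^ (r * 2) * (16 * t) ^ (r * m) := Nat.mul_le_mul_right _ h3
    _ = (16 * t) ^ (r * m) * (16 * t) ^ (r * 2) := Nat.mul_comm _ _
    _ ≤ (16 * t) ^ (r ^ 2) := h2

end Pool.Agent.Helper78.SC
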